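import Mathlib
import Pool.Agent.H79.TD.Stm6
import Pool.Agent.H22.TD.Bez

/-!
# Project SV, module BZ2 (helper61)
-/

set_option autoImplicit false

open MvPolynomial Module Pool.Agent.H77.TF

namespace Pool.Agent.H61.TD

open Pool.Agent.H79.TD

section

variable {K : Type} [Field K]

/-- the derivative at `x` in the direction `t` -/
noncomputable def Dt (t x : Fin 3 → K) : MvPolynomial (Fin 3) K →ₗ[K] K where
  toFun h := ∑ i, t i * eval x (pderiv i h)
  map_add' a b := by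
    simp only [map_add, mul_add, Finset.sum_add_distrib]
  map_smul' c a := by
    rw [RingHom.id_apply, smul_eq_mul, Finset.mul_sum]
    refine Finset.sum_congr rfl fun i _ => ?_
    rw [Derivation.map_smul, MvPolynomial.smul_eval]
    ring

theorem Dt_mul (t x : Fin 3 → K) (a b : MvPolynomial (Fin 3) K) :
    Dt t x (a * b) = Dt t x a * eval x b + eval x a * Dt t x b := by
  show ∑ i, t i * eval x (pderiv i (a * b)) = (∑ i, t i * eval x (pderiv i a)) * eval x b +
    eval x a * ∑ i, t i * eval x (pderiv i b)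
  rw [Finset.sum_mul, Finset.mul_sum, ← Finset.sum_add_distrib]
  refine Finset.sum_congr rfl fun i _ => ?_
  rw [pderiv_mul, map_add, map_mul, map_mul]
  ring

theorem Dt_lin (t x a : Fin 3 → K) : Dt t x (lin a) = ∑ i, a i * t i := by
  show ∑ i, t i * eval x (pderiv i (lin a)) = _
  refine Finset.sum_congr rfl fun i _ => ?_
  unfold lin
  rw [map_sum, Finset.sum_eq_single i]
  · rw [pderiv_C_mul, pderiv_X_self, mul_one, eval_C, mul_comm]
  · intro j _ hj
    rw [pderiv_C_mul, pderiv_X_of_ne hj, mul_zero]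
  · exact fun h => absurd (Finset.mem_univ _) h

theorem Dt_sq (t x : Fin 3 → K) (a : MvPolynomial (Fin 3) K) (h : eval x a = 0) (b : MvPolynomial (Fin 3) K) :
    Dt t x (a ^ 2 * b) = 0 ∧ eval x (a ^ 2 * b) = 0 := by
  constructor
  · rw [sq, mul_assoc, Dt_mul, Dt_mul, h, map_mul, h]
    ring
  · rw [map_mul, map_pow, h]
    ring

/-- the evaluation of forms -/
noncomputable def evt (R : Finset (Fin 3 → K)) (t : R → Fin 3 → K) (e : ℕ) :
    homogeneousSubmodule (Fin 3) K e →ₗ[K] (R → K × K) where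
  toFun f := fun r => (eval r.1 f.1, Dt (t r) r.1 f.1)
  map_add' f g := by
    funext r
    simp
  map_smul' c f := by
    funext r
    simp

theorem evt_surj {R : Finset (Fin 3 → K)} (t : R → Fin 3 → K) (hne : ∀ r ∈ R, r ≠ 0)
    (hR : ∀ x ∈ R, ∀ y ∈ R, ∀ c : K, x = c • y → x = y) (ht : ∀ r : R, ∀ c : K, t r ≠ c • r.1)
    (e : ℕ) (he : 2 * R.card + 1 ≤ e) : Function.Surjective (evt R t e) := by
  classical
  have hF : ∀ r : R, ∃ F G : homogeneousSubmodule (Fin 3) K e, eval r.1 F.1 ≠ 0 ∧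
      eval r.1 G.1 = 0 ∧ Dt (t r) r.1 G.1 ≠ 0 ∧
      ∀ s : R, s ≠ r → (eval s.1 F.1 = 0 ∧ Dt (t s) s.1 F.1 = 0) ∧
        (eval s.1 G.1 = 0 ∧ Dt (t s) s.1 G.1 = 0) := by
    intro r
    have h1 : ∀ s : Fin 3 → K, ∃ a : Fin 3 → K, s ∈ R → s ≠ r.1 →
        ∑ i, a i * s i = 0 ∧ ∑ i, a i * r.1 i ≠ 0 := by
      intro s
      by_cases hs : s ∈ R ∧ s ≠ r.1
      · obtain ⟨a, ha⟩ := H22.TD.exists_sep r.1 s (hne s hs.1) fun c hc =>
          hs.2 (hR r.1 r.2 s hs.1 c hc).symm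
        exact ⟨a, fun _ _ => ha⟩
      · exact ⟨0, fun h2 h3 => absurd ⟨h2, h3⟩ hs⟩
    choose a ha using h1
    obtain ⟨l, hl0, hl1⟩ := H22.TD.exists_sep (t r) r.1 (hne r.1 r.2) (ht r)
    obtain ⟨k, hk⟩ : ∃ k, r.1 k ≠ 0 := Function.ne_iff.1 (hne r.1 r.2)
    have hm : ∑ i, (Pi.single k (1 : K) : Fin 3 → K) i * r.1 i ≠ 0 := by
      simpa [Pi.single_apply] using hk
    obtain ⟨P, hP⟩ : ∃ P, P = ∏ s ∈ R.erase r.1, lin (a s) := ⟨_, rfl⟩
    have hcard : (R.erase r.1).card + 1 = R.card := Finset.card_erase_add_one r.2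
    have hPh : P.IsHomogeneous (R.erase r.1).card := by
      have h2 : (∏ s ∈ R.erase r.1, lin (a s)).IsHomogeneous (∑ _s ∈ R.erase r.1, 1) :=
        IsHomogeneous.prod _ _ _ fun s _ => H22.TF.lin_hom _
      rw [Finset.sum_const, smul_eq_mul, mul_one] at h2
      rw [hP]
      exact h2
    have hPr : eval r.1 P ≠ 0 := by
      rw [hP, map_prod]
      refine Finset.prod_ne_zero_iff.2 fun s hs => ?_
      rw [H22.TD.eval_lin]
      exact (ha s (Finset.mem_of_mem_erase hs) (Finset.ne_of_mem_erase hs)).2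
    have hPs : ∀ s : R, s ≠ r → eval s.1 P = 0 := by
      intro s hs
      have hs' : s.1 ≠ r.1 := fun h => hs (Subtype.ext h)
      rw [hP, map_prod, Finset.prod_eq_zero (Finset.mem_erase.2 ⟨hs', s.2⟩)]
      rw [H22.TD.eval_lin]
      exact (ha s.1 s.2 hs').1
    have hm' : eval r.1 (lin (Pi.single k (1 : K)) : MvPolynomial (Fin 3) K) ≠ 0 := by
      rw [H22.TD.eval_lin]
      exact hm
    have hl' : eval r.1 (lin l) = 0 := by
      rw [H22.TD.eval_lin]
      exact hl0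
    refine ⟨⟨P ^ 2 * lin (Pi.single k (1 : K)) ^ (e - 2 * (R.erase r.1).card), ?_⟩,
      ⟨P ^ 2 * (lin (Pi.single k (1 : K)) ^ (e - 2 * (R.erase r.1).card - 1) * lin l), ?_⟩,
      ?_, ?_, ?_, ?_⟩
    · have h3 := (hPh.pow 2).mul ((H22.TF.lin_hom (Pi.single k (1 : K) : Fin 3 → K)).pow
        (e - 2 * (R.erase r.1).card))
      rw [one_mul, show (R.erase r.1).card * 2 + (e - 2 * (R.erase r.1).card) = e by omega] at h3
      exact h3
    · have h3 := (hPh.pow 2).mul (((H22.TF.lin_hom (Pi.single k (1 : K) : Fin 3 → K)).pow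
        (e - 2 * (R.erase r.1).card - 1)).mul (H22.TF.lin_hom l))
      rw [one_mul, show (R.erase r.1).card * 2 + (e - 2 * (R.erase r.1).card - 1 + 1) = e by
        omega] at h3
      exact h3
    · show eval r.1 (P ^ 2 * lin (Pi.single k (1 : K)) ^ (e - 2 * (R.erase r.1).card)) ≠ 0
      rw [map_mul, map_pow, map_pow]
      exact mul_ne_zero (pow_ne_zero _ hPr) (pow_ne_zero _ hm')
    · show eval r.1 (P ^ 2 * (lin (Pi.single k (1 : K)) ^ (e - 2 * (R.erase r.1).card - 1) *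
        lin l)) = 0
      rw [map_mul, map_mul, hl', mul_zero, mul_zero]
    · show Dt (t r) r.1 (P ^ 2 * (lin (Pi.single k (1 : K)) ^
        (e - 2 * (R.erase r.1).card - 1) * lin l)) ≠ 0
      rw [Dt_mul, Dt_mul, map_mul, hl', Dt_lin, mul_zero, mul_zero, mul_zero, zero_add, zero_add,
        map_pow, map_pow]
      exact mul_ne_zero (pow_ne_zero _ hPr) (mul_ne_zero (pow_ne_zero _ hm') hl1)
    · intro s hs
      exact ⟨(Dt_sq (t s) s.1 P (hPs s hs) _).symm, (Dt_sq (t s) s.1 P (hPs s hs) _).symm⟩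
  choose F G hF1 hG0 hG1 hFG using hF
  intro y
  refine ⟨∑ r : R, (((y r).1 * (eval r.1 (F r).1)⁻¹) • F r + (((y r).2 -
    (y r).1 * (eval r.1 (F r).1)⁻¹ * Dt (t r) r.1 (F r).1) * (Dt (t r) r.1 (G r).1)⁻¹) • G r), ?_⟩
  rw [map_sum]
  funext s
  rw [Finset.sum_apply, Finset.sum_eq_single s]
  · rw [map_add, map_smul, map_smul, Pi.add_apply, Pi.smul_apply, Pi.smul_apply]
    refine Prod.ext ?_ ?_
    · show (y s).1 * (eval s.1 (F s).1)⁻¹ * eval s.1 (F s).1 + _ * eval s.1 (G s).1 = (y s).1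
      rw [mul_assoc, inv_mul_cancel₀ (hF1 s), mul_one, hG0, mul_zero, add_zero]
    · show (y s).1 * (eval s.1 (F s).1)⁻¹ * Dt (t s) s.1 (F s).1 + ((y s).2 -
        (y s).1 * (eval s.1 (F s).1)⁻¹ * Dt (t s) s.1 (F s).1) * (Dt (t s) s.1 (G s).1)⁻¹ *
        Dt (t s) s.1 (G s).1 = (y s).2
      rw [mul_assoc _ (Dt (t s) s.1 (G s).1)⁻¹, inv_mul_cancel₀ (hG1 s)]
      ring
  · intro r _ hr
    have h1 := hFG r s hr.symm
    rw [map_add, map_smul, map_smul, Pi.add_apply, Pi.smul_apply, Pi.smul_apply]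
    refine Prod.ext ?_ ?_
    · show _ * eval s.1 (F r).1 + _ * eval s.1 (G r).1 = 0
      rw [h1.1.1, h1.2.1, mul_zero, mul_zero, add_zero]
    · show _ * Dt (t s) s.1 (F r).1 + _ * Dt (t s) s.1 (G r).1 = 0
      rw [h1.1.2, h1.2.2, mul_zero, mul_zero, add_zero]
  · exact fun h => absurd (Finset.mem_univ _) h

end

/-- **Module BZ2.** -/
theorem t_BZ2 (hDIM : S_DIM) : S_BZ2 := by
  intro K _ u v f g R hf hg hf0 _ hrel hne hR hx
  choose! tt ht using fun x hxR => (hx x hxR).2.2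
  have hx1 := fun x hxR => (hx x hxR).1
  have hx2 := fun x hxR => (hx x hxR).2.1
  obtain ⟨t, htt⟩ : ∃ t, t = 2 * R.card + 1 := ⟨_, rfl⟩
  have hfin : ∀ e, Module.Finite K (homogeneousSubmodule (Fin 3) K e) := fun e => (hDIM K e).1
  have hdim : ∀ e, finrank K (homogeneousSubmodule (Fin 3) K e) = (e + 2).choose 2 :=
    fun e => (hDIM K e).2
  have hs := evt_surj (fun r : R => tt r.1) hne hR (fun r => (ht r.1 r.2).1) (u + v + t)
    (by omega)
  have h1 := LinearMap.finrank_range_add_finrank_ker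
    (evt R (fun r : R => tt r.1) (u + v + t))
  rw [LinearMap.range_eq_top.2 hs, finrank_top, Module.finrank_pi_fintype, hdim] at h1
  simp only [Module.finrank_prod, Module.finrank_self, Finset.sum_const, Finset.card_univ,
    Fintype.card_coe, smul_eq_mul] at h1
  have h2 := LinearMap.finrank_range_add_finrank_ker (H22.TD.Ph f g u v t hf hg)
  rw [Module.finrank_prod, hdim, hdim] at h2
  have h3 : finrank K (LinearMap.ker (H22.TD.Ph f g u v t hf hg)) ≤ (t + 2).choose 2 := by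
    refine (Submodule.finrank_mono (H22.TD.ker_Ph hf hg hf0 hrel)).trans ?_
    rw [← hdim t]
    exact LinearMap.finrank_range_le _
  have h4 : finrank K (LinearMap.range (H22.TD.Ph f g u v t hf hg)) ≤
      finrank K (LinearMap.ker (evt R (fun r : R => tt r.1) (u + v + t))) := by
    refine Submodule.finrank_mono ?_
    rintro _ ⟨p, rfl⟩
    rw [LinearMap.mem_ker]
    funext r
    have hf1 : Dt (tt r.1) r.1 f = 0 := (ht r.1 r.2).2.1
    have hg1 : Dt (tt r.1) r.1 g = 0 := (ht r.1 r.2).2.2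
    refine Prod.ext ?_ ?_
    · show eval r.1 (p.1.1 * f + p.2.1 * g) = 0
      rw [map_add, map_mul, map_mul, hx1 r.1 r.2, hx2 r.1 r.2, mul_zero, mul_zero, add_zero]
    · show Dt (tt r.1) r.1 (p.1.1 * f + p.2.1 * g) = 0
      rw [map_add, Dt_mul, Dt_mul, hx1 r.1 r.2, hx2 r.1 r.2, hf1, hg1]
      ring
  have h5 := H22.TD.choose_id u v t
  omega

end Pool.Agent.H61.TD
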