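import Pool.Agent.H79.TD.Stm4

/-!
# Project EX: module RNG (finitely generated subrings of fields)
-/

set_option autoImplicit false

namespace Pool.Agent.H61.TD

open Pool.Agent.H79.TD

theorem jac_int : IsJacobsonRing ℤ := by
  rw [isJacobsonRing_iff_prime_eq]
  intro P hP
  by_cases h0 : P = ⊥
  · subst h0
    rw [eq_bot_iff]
    intro x hx
    rw [Ideal.mem_jacobson_bot] at hx
    have h1 := Int.isUnit_iff.1 (hx x)
    have h2 : x * x = 0 := by
      rcases h1 with h1 | h1
      · linarith
      · nlinarith [mul_self_nonneg x]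
    exact mul_self_eq_zero.1 h2
  · have := Ideal.IsPrime.isMaximal hP h0
    exact Ideal.jacobson_eq_self_of_isMaximal

theorem fin_field (S : Type) [Field S] [Algebra.FiniteType ℤ S] : Finite S := by
  have := jac_int
  have h1 : Module.Finite ℤ S := finite_of_finite_type_of_isJacobsonRing ℤ S
  obtain ⟨p, hp⟩ := CharP.exists S
  rcases CharP.char_is_prime_or_zero S p with h | h
  · refine Module.finite_of_fg_torsion S ?_
    intro x
    refine ⟨⟨(p : ℤ), mem_nonZeroDivisors_of_ne_zero (by exact_mod_cast h.ne_zero)⟩, ?_⟩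
    change ((p : ℤ) • x) = 0
    simp
  · subst h
    have h2 : CharZero S := CharP.charP_to_charZero S
    have hinj : Function.Injective (algebraMap ℤ S) := by
      rw [algebraMap_int_eq]
      exact RingHom.injective_int _
    have h3 : Algebra.IsIntegral ℤ S := inferInstance
    have h4 : IsField ℤ := isField_of_isIntegral_of_isField hinj (Field.toIsField S)
    exact absurd h4 Int.not_isField

theorem t_RNG : S_RNG := by
  intro F _ s
  have hA : Algebra.FiniteType ℤ (Algebra.adjoin ℤ (s : Set F)) :=
    (Subalgebra.fg_iff_finiteType _).1 (Subalgebra.fg_adjoin_finset s)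
  let R : Subring F := (Algebra.adjoin ℤ (s : Set F)).toSubring
  let e : (Algebra.adjoin ℤ (s : Set F)) ≃+* R :=
    { toFun := fun x => ⟨x.1, x.2⟩
      invFun := fun x => ⟨x.1, x.2⟩
      left_inv := fun _ => rfl
      right_inv := fun _ => rfl
      map_mul' := fun _ _ => rfl
      map_add' := fun _ _ => rfl }
  have := jac_int
  have hR : Algebra.FiniteType ℤ R := hA.of_surjective (RingHom.toIntAlgHom e.toRingHom) fun x => e.surjective x
  have hJ : IsJacobsonRing R := isJacobsonRing_of_finiteType (A := ℤ)
  refine ⟨R, fun x hx => Algebra.subset_adjoin hx, fun m hm => ?_, fun x hx => ?_⟩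
  · have := hm
    let _ : Field (R ⧸ m) := Ideal.Quotient.field m
    have h1 : Algebra.FiniteType ℤ (R ⧸ m) :=
      hR.of_surjective (Ideal.Quotient.mk m).toIntAlgHom Ideal.Quotient.mk_surjective
    exact @fin_field (R ⧸ m) _ h1
  · have h1 : (⊥ : Ideal R).jacobson = ⊥ := IsJacobsonRing.out hJ (Ideal.isPrime_bot (α := R)).isRadical
    by_contra hcon
    push Not at hcon
    apply hx
    have h2 : x ∈ (⊥ : Ideal R).jacobson := by
      rw [Ideal.jacobson, Ideal.mem_sInf]
      rintro J ⟨-, hJ⟩
      exact hcon J hJ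
    rw [h1] at h2
    exact h2

end Pool.Agent.H61.TD
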