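import Pool.Agent.H79.TD.Stm3

/-!
# Project EX: module SCL (common denominators)
-/

set_option autoImplicit false

namespace Pool.Agent.H61.TD

open MvPolynomial Module Pool.Agent.H77.TF Pool.Agent.H77.GR Pool.Agent.H79.TD

theorem t_SCL : S_SCL := by
  intro n A
  have hd : ∀ i, ((A i 0).den * (A i 1).den * (A i 2).den : ℕ) ≠ 0 := fun i =>
    Nat.mul_ne_zero (Nat.mul_ne_zero (A i 0).den_nz (A i 1).den_nz) (A i 2).den_nz
  have key : ∀ i (l : Fin 3), ∃ z : ℤ, (z : ℚ) = (((A i 0).den * (A i 1).den * (A i 2).den : ℕ) : ℚ) * A i l := by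
    intro i l
    have h1 : ∀ q : ℚ, (q.num : ℚ) = q.den * q := fun q => by
      rw [mul_comm]
      exact (Rat.mul_den_eq_num q).symm
    fin_cases l
    · refine ⟨(A i 0).num * (A i 1).den * (A i 2).den, ?_⟩
      push_cast
      rw [h1]
      change _ = _ * A i 0
      ring
    · refine ⟨(A i 0).den * (A i 1).num * (A i 2).den, ?_⟩
      push_cast
      rw [h1]
      change _ = _ * A i 1
      ring
    · refine ⟨(A i 0).den * (A i 1).den * (A i 2).num, ?_⟩
      push_cast
      rw [h1]
      change _ = _ * A i 2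
      ring
  choose z hz using key
  refine ⟨z, fun i => (((A i 0).den * (A i 1).den * (A i 2).den : ℕ) : ℚ), fun i => ?_, fun i => ?_⟩
  · exact Nat.cast_ne_zero.2 (hd i)
  · funext l
    rw [Pi.smul_apply, smul_eq_mul, ← hz i l]
    rfl

end Pool.Agent.H61.TD
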